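import Mathlib
import Pool.Agent.Lib.helper18.Chaos
import Pool.Agent.Lib.helper18.Sand

namespace Pool.Agent.Results.MP_415091_an.Chaos

open Filter Topology Real Pool.Agent.Lib.helper18.Chaos Pool.Agent.Lib.helper18.Sand

theorem result : ∃ (α A B : ℝ) (x : ℕ → ℝ), 0 < α ∧ 0 < A ∧ 0 < B ∧ (∀ n, 0 ≤ x n) ∧
    (∀ n, x (n + 3) = (α + x n) / (A + B * x (n + 2) + x (n + 1))) ∧
    (∃ M : ℝ, ∀ n, x n ≤ M) ∧
    ¬ Tendsto x atTop (𝓝 ((1 - A + √((1 - A) ^ 2 + 4 * α * (B + 1))) / (2 * (B + 1)))) ∧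
    ∀ (p : ℕ → ℝ) (k : ℕ), 1 ≤ k → (∀ n, p (n + k) = p n) →
      ¬ Tendsto (fun n => x n - p n) atTop (𝓝 0) := by
  set L : ℝ := 2 * 10 ^ 7 with hL
  have hL1 : 1 ≤ L := by rw [hL]; norm_num
  obtain ⟨z, z0, z2, z1, hpos, hrec, hbd, hap⟩ := chaos L le_rfl
    (fun w v u => exp (-L) + w / (u + exp (-20 * L) * max (v - exp (-L)) 0))
    (by fun_prop (disch := intro; positivity)) (fun w v u hw hv hu => by positivity)
    (fun w v u hw hv hu => by
      have hw0 := (exp_pos _).trans_le hw.1
      have hv0 := (exp_pos _).trans_le hv.1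
      have hu0 := (exp_pos _).trans_le hu.1
      have hm : max (v - exp (-L)) 0 ≤ exp (8 * L) :=
        max_le (by linarith [hv.2, exp_pos (-L)]) (exp_pos _).le
      have t1 := tiny hL1 hm hu.1
      have t3 := small hL1 hu0
      have t5 : 0 ≤ exp (-20 * L) * max (v - exp (-L)) 0 := by positivity
      generalize exp (-20 * L) * max (v - exp (-L)) 0 = s at t1 t5
      have g := exp_pos (-L)
      have := sand (N := exp (-L) * (u + s) + w) (D := u + s) g hw0 hu0
        (by nlinarith) (by nlinarith) (by linarith) (by linarith)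
      rwa [add_div, mul_div_cancel_right₀ _ (by positivity)] at this)
  have hge : ∀ n, exp (-L) ≤ z n := by
    intro n
    match n with
    | 0 => exact z0.ge
    | 1 => exact (exp_le_one_iff.2 (by linarith)).trans z1
    | 2 => exact z2.ge
    | n + 3 =>
      rw [hrec]
      have a := hpos n
      have c := hpos (n + 2)
      exact le_add_of_nonneg_right (by positivity)
  have key : ∀ (p : ℕ → ℝ) (k : ℕ), 1 ≤ k → (∀ n, p (n + k) = p n) →
      ¬ Tendsto (fun n => exp (-20 * L) * (z n - exp (-L)) - p n) atTop (𝓝 0) := by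
    intro p k hk hp h
    apply hap k hk
    have h1 := (diff_of_per (fun n => exp (-20 * L) * (z n - exp (-L))) p k hp h).const_mul
      (exp (-20 * L))⁻¹
    rw [mul_zero] at h1
    exact h1.congr fun n => by field_simp; ring
  refine ⟨exp (-20 * L) * exp (-L), exp (-L), (exp (-20 * L))⁻¹,
    fun n => exp (-20 * L) * (z n - exp (-L)), by positivity,
    exp_pos _, by positivity, fun n => mul_nonneg (exp_pos _).le (sub_nonneg.2 (hge n)), fun n => ?_,
    ⟨exp (-20 * L) * exp (8 * L), fun n => mul_le_mul_of_nonneg_left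
      (by linarith [hbd n, exp_pos (-L)]) (exp_pos _).le⟩,
    fun h => key (fun _ => _) 1 le_rfl (fun _ => rfl) (tendsto_sub_nhds_zero_iff.2 h), key⟩
  simp only []
  rw [hrec, max_eq_left (sub_nonneg.2 (hge (n + 1))), inv_mul_cancel_left₀ (exp_pos _).ne']
  rw [add_sub_cancel_left, add_sub_cancel, ← mul_add, add_sub_cancel, mul_div_assoc]

end Pool.Agent.Results.MP_415091_an.Chaos
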